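import Pool.Agent.H820R2.SS.Enc
import Pool.Agent.H820R2.SS.OfARM
import Pool.Agent.H671R2.PolyAuto

/-!
# The reductions are computable in polynomial time
-/

namespace Pool.Agent.NPC.H604SS

open Pool.Agent.NPC Pool.Agent.H820R2.SS

variable {α β γ : Type} [TEnc α] [TEnc β] [TEnc γ]

@[fun_prop]
theorem poly_tmVar {x : α → ℕ} (hx : Poly x) : Poly (fun a => Tm.var (x a)) :=
  Poly.of_toT ((Poly.toT' (Poly.inl (γ := ℕ × List Tm) hx)).congr fun a => (toT_tmVar (x a)).symm)

@[fun_prop]
theorem poly_tmFn {f : α → ℕ} {ts : α → List Tm} (hf : Poly f) (hts : Poly ts) :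
    Poly (fun a => Tm.fn (f a) (ts a)) :=
  Poly.of_toT ((Poly.toT' (Poly.inr (β := ℕ) (Poly.pair hf hts))).congr fun a =>
    (toT_tmFn (f a) (ts a)).symm)

@[fun_prop]
theorem poly_c {k : α → ℕ} (hk : Poly k) : Poly (fun a => c (k a)) :=
  poly_tmFn hk (Poly.const [])

@[fun_prop]
theorem poly_cX {X : α → Bool} (hX : Poly X) : Poly (fun a => cX (X a)) :=
  (Poly.cond hX (Poly.const (c 2)) (Poly.const (c 1))).congr fun a => by
    unfold cX
    cases X a <;> rfl

@[fun_prop]
theorem poly_pat {X : α → Bool} {b : α → ℕ} (hX : Poly X) (hb : Poly b) :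
    Poly (fun a => pat (X a) (b a)) :=
  (Poly.cond hX (f := fun a => Tm.fn 3 [c 0, .var (b a)]) (g := fun a => Tm.fn 3 [.var (b a), c 0])
    (by fun_prop) (by fun_prop)).congr fun a => by
    unfold pat
    cases X a <;> rfl

theorem uPoly_n {G : α → Game} (hG : Poly G) : UPoly (fun a => (G a).n) :=
  UPoly.add (UPoly.length (Poly.fst hG)) (UPoly.const 1)

@[fun_prop]
theorem poly_nRange {G : α → Game} (hG : Poly G) : Poly (fun a => List.range ((G a).n)) :=
  (uPoly_n hG).range

@[fun_prop]
theorem poly_Z0 {G : α → Game} (hG : Poly G) : Poly (fun a => (G a).Z0) :=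
  Poly.fst (Poly.snd hG)

@[fun_prop]
theorem poly_next0 {G : α → Game} (hG : Poly G) : Poly (fun a => (G a).next0) :=
  Poly.fst (Poly.snd (Poly.snd hG))

@[fun_prop]
theorem poly_MRange {G : α → Game} (hG : Poly G) : Poly (fun a => List.range ((G a).M)) :=
  (UPoly.length (Poly.snd (Poly.snd (Poly.snd hG)))).range

@[fun_prop]
theorem poly_brs {G : α → Game} {m : α → ℕ} (hG : Poly G) (hm : Poly m) :
    Poly (fun a => (G a).brs (m a)) :=
  Poly.getD (Poly.snd (Poly.snd (Poly.snd hG))) hm (Poly.const [])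

theorem uPoly_J {G : α → Game} {m : α → ℕ} (hG : Poly G) (hm : Poly m) :
    UPoly (fun a => (G a).J (m a)) :=
  UPoly.length (poly_brs hG hm)

@[fun_prop]
theorem poly_J {G : α → Game} {m : α → ℕ} (hG : Poly G) (hm : Poly m) :
    Poly (fun a => (G a).J (m a)) := (uPoly_J hG hm).toPoly

@[fun_prop]
theorem poly_JRange {G : α → Game} {m : α → ℕ} (hG : Poly G) (hm : Poly m) :
    Poly (fun a => List.range ((G a).J (m a))) := (uPoly_J hG hm).range

@[fun_prop]
theorem poly_br {G : α → Game} {m j : α → ℕ} (hG : Poly G) (hm : Poly m) (hj : Poly j) :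
    Poly (fun a => (G a).br (m a) (j a)) :=
  Poly.getD (poly_brs hG hm) hj (Poly.const ([], []))

@[fun_prop]
theorem poly_fib {F : α → List (ℕ × ℕ)} {b : α → ℕ} (hF : Poly F) (hb : Poly b) :
    Poly (fun a => fib (F a) (b a)) := by
  unfold fib
  fun_prop

@[fun_prop]
theorem poly_xrow {G : α → Game} {X : α → Bool} {m : α → ℕ} {D : α → List ℕ} (hG : Poly G)
    (hX : Poly X) (hm : Poly m) (hD : Poly D) : Poly (fun a => xrow (G a) (X a) (m a) (D a)) := by
  unfold xrow cols
  refine poly_tmFn (by fun_prop) (Poly.append (Poly.map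
    (F := fun a b => if b ∈ D a then pat (X a) b else c 0) (poly_nRange hG) ?_)
    (Poly.map (F := fun _ _ => c 0) (poly_JRange hG hm) ?_))
  · refine Poly.ite (Poly.dec_mem ?_ ?_) ?_ ?_ <;> fun_prop
  · fun_prop

@[fun_prop]
theorem poly_yrow {G : α → Game} {m j b : α → ℕ} {X : α → Bool} {m' : α → ℕ} (hG : Poly G)
    (hm : Poly m) (hj : Poly j) (hb : Poly b) (hX : Poly X) (hm' : Poly m') :
    Poly (fun a => yrow (G a) (m a) (j a) (b a) (X a) (m' a)) := by
  unfold yrow cols
  refine poly_tmFn (by fun_prop) (Poly.append (Poly.map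
    (F := fun a b' => if b' = b a then cX (X a) else c 0) (poly_nRange hG) ?_)
    (Poly.map (F := fun a j' => if j' = j a then
      xrow (G a) (X a) (m' a) (fib ((G a).br (m a) (j a)).1 (b a)) else c 1)
      (poly_JRange hG hm) ?_))
  · refine Poly.ite (Poly.dec_eq ?_ ?_) ?_ ?_ <;> fun_prop
  · refine Poly.ite (Poly.dec_eq ?_ ?_) ?_ ?_ <;> fun_prop

@[fun_prop]
theorem poly_lrow {G : α → Game} {m : α → ℕ} (hG : Poly G) (hm : Poly m) :
    Poly (fun a => lrow (G a) (m a)) := by
  unfold lrow
  fun_prop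

theorem poly_mrules {G : α → Game} {m : α → ℕ} (hG : Poly G) (hm : Poly m) :
    Poly (fun a => mrules (G a) (m a)) := by
  unfold mrules
  refine Poly.ite (Poly.dec_eq (by fun_prop) (by fun_prop)) (by fun_prop) ?_
  refine Poly.flatMap (F := fun a j => (List.range (G a).n).flatMap (fun b =>
      [false, true].flatMap (fun X => ((G a).br (m a) j).2.map
        (fun m' => yrow (G a) (m a) j b X m')))) (poly_JRange hG hm) ?_
  refine Poly.flatMap (F := fun (p : α × ℕ) b =>
      [false, true].flatMap (fun X => ((G p.1).br (m p.1) p.2).2.map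
        (fun m' => yrow (G p.1) (m p.1) p.2 b X m')))
      (poly_nRange (hG.comp (Poly.fst Poly.id))) ?_
  refine Poly.flatMap (F := fun (p : (α × ℕ) × ℕ) X => ((G p.1.1).br (m p.1.1) p.1.2).2.map
        (fun m' => yrow (G p.1.1) (m p.1.1) p.1.2 p.2 X m')) (Poly.const _) ?_
  refine Poly.map (F := fun (p : ((α × ℕ) × ℕ) × Bool) m' =>
    yrow (G p.1.1.1) (m p.1.1.1) p.1.1.2 p.1.2 p.2 m') ?_ ?_
  · fun_prop
  · fun_prop

theorem poly_lhss : Poly lhss := by
  unfold lhss
  refine Poly.cons (Poly.const _) (Poly.cons (Poly.const _) (Poly.append ?_ ?_))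
  · refine Poly.flatMap (F := fun (G : Game) X => G.next0.map (fun m' =>
      Tm.fn 4 [cX X, xrow G X m' G.Z0])) (Poly.const _) ?_
    refine Poly.map (F := fun (p : Game × Bool) m' =>
      Tm.fn 4 [cX p.2, xrow p.1 p.2 m' p.1.Z0]) ?_ ?_ <;> fun_prop
  · refine Poly.flatMap (F := fun (G : Game) m => mrules G m) ?_ ?_
    · fun_prop
    · exact poly_mrules (Poly.fst Poly.id) (Poly.snd Poly.id)

/-- The rewriting system of a game is computable in polynomial time. -/
theorem poly_trs : Poly trs := by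
  unfold trs
  exact Poly.map (F := fun (_ : Game) l => (l, c 0)) poly_lhss (by fun_prop)

/-! ### From alternating register machines to games -/

/-- `lookup` through `find?`-like filter. -/
theorem lookup_eq_filter (l : List (ℕ × Bool)) (i : ℕ) :
    l.lookup i = ((l.filter (fun p => decide (p.1 = i))).map Prod.snd).head? := by
  induction l with
  | nil => rfl
  | cons p l ih =>
    obtain ⟨k, v⟩ := p
    rw [List.lookup_cons, ih]
    by_cases h : k = i
    · subst h
      simp
    · have h' : (i == k) = false := by simp [Ne.symm h]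
      rw [h']
      simp [h]

@[fun_prop]
theorem poly_lookup {l : α → List (ℕ × Bool)} {i : α → ℕ} (hl : Poly l) (hi : Poly i) :
    Poly (fun a => (l a).lookup (i a)) := by
  refine Poly.congr (f := fun a =>
    (((l a).filter (fun p => decide (p.1 = i a))).map Prod.snd).head?) ?_
    fun a => (lookup_eq_filter _ _).symm
  fun_prop

@[fun_prop]
theorem poly_lab {i : α → ℕ} {v : α → Bool} (hi : Poly i) (hv : Poly v) :
    Poly (fun a => lab (i a) (v a)) :=
  (Poly.cond hv (f := fun a => 2 * i a + 2) (g := fun a => 2 * i a + 1)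
    (by fun_prop) (by fun_prop)).congr fun a => by
    unfold lab
    cases v a <;> rfl

theorem poly_testF {n b : α → ℕ} (hn : UPoly n) (hb : Poly b) :
    Poly (fun a => testF (n a) (b a)) := by
  unfold testF
  exact Poly.map (F := fun a b' => (b a, b')) hn.range (by fun_prop)

theorem poly_updF {N : α → ℕ} {U : α → List (ℕ × Bool)} (hN : UPoly N) (hU : Poly U) :
    Poly (fun a => updF (N a) (U a)) := by
  unfold updF
  refine Poly.cons (Poly.const _) (Poly.flatMap (F := fun a i =>
    Option.elim ((U a).lookup i) [(lab i false, lab i false), (lab i true, lab i true)]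
      (fun v => [(0, lab i v)])) hN.range ?_)
  exact Poly.optElim (h := fun (p : α × ℕ) v => [(0, lab p.2 v)]) (by fun_prop) (by fun_prop)
    (by fun_prop)

@[fun_prop]
theorem poly_nextC {P : α → List ARule} {q : α → ℕ} (hP : Poly P) (hq : Poly q) :
    Poly (fun a => nextC (P a) (q a)) := by
  unfold nextC
  fun_prop

theorem poly_ruleBr {N : α → ℕ} {P : α → List ARule} {r : α → ARule} (hN : UPoly N)
    (hP : Poly P) (hr : Poly r) : Poly (fun a => ruleBr (N a) (P a) (r a)) := by
  have h2 : UPoly (fun a => 2 * N a + 1) := UPoly.add (UPoly.mul (UPoly.const 2) hN) (UPoly.const 1)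
  unfold ruleBr
  refine Poly.cons (Poly.pair (poly_testF h2 (Poly.const 0)) (by fun_prop)) (Poly.append ?_ ?_)
  · refine Poly.map (F := fun a (g : ℕ × Bool) => (testF (2 * N a + 1) (lab g.1 g.2),
      [(P a).length])) (by fun_prop) (Poly.pair (poly_testF (h2.comp (Poly.fst Poly.id)) ?_) ?_) <;>
    fun_prop
  · refine Poly.map (F := fun a (s : ℕ × List (ℕ × Bool)) => (updF (N a) s.2, nextC (P a) s.1))
      (by fun_prop) (Poly.pair (poly_updF (hN.comp (Poly.fst Poly.id)) ?_) ?_) <;> fun_prop

/-- The game of an alternating register machine is computable in polynomial time. -/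
theorem poly_ofARM : Poly ofARM := by
  unfold ofARM
  have hN : UPoly (fun M : ARM => M.1.length) := UPoly.length (Poly.fst Poly.id)
  refine Poly.pair (by fun_prop) (Poly.pair (Poly.cons (Poly.const _) ?_)
    (Poly.pair (by fun_prop) (Poly.append ?_ (by fun_prop))))
  · exact Poly.map (F := fun _ i => lab i false) hN.range (by fun_prop)
  · exact Poly.map (F := fun (M : ARM) r => ruleBr M.1.length M.2.2 r) (by fun_prop)
      (poly_ruleBr (hN.comp (Poly.fst Poly.id)) (by fun_prop) (by fun_prop))

end Pool.Agent.NPC.H604SS
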