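import Pool.Agent.H820R2.SS.ARM
import Pool.Agent.NPC.Sat2
import Pool.Agent.H671R2.PolyAuto

/-!
# From 3SAT to alternating register machines
-/

namespace Pool.Agent.NPC.H604SS

open Pool.Agent.NPC Pool.Agent.H820R2.SS

/-- A clause. -/
abbrev Cl : Type := Lit ℕ × Lit ℕ × Lit ℕ

/-- The rules that choose the values of the registers `0, …, N - 1`. -/
def chooseR (N : ℕ) : List ARule :=
  (List.range N).flatMap (fun i => [(i, [], [(i + 1, [(i, true)])]), (i, [], [(i + 1, [(i, false)])])])

/-- The rules that check the clauses. -/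
def checkR (N : ℕ) (φ : List Cl) : List ARule :=
  φ.zipIdx.flatMap (fun p => [(N + 1 + p.2, [(p.1.1.2, p.1.1.1)], []),
    (N + 1 + p.2, [(p.1.2.1.2, p.1.2.1.1)], []), (N + 1 + p.2, [(p.1.2.2.2, p.1.2.2.1)], [])])

/-- The machine of a 3CNF formula. -/
def satARM (φ : List Cl) : ARM :=
  (List.replicate (3 * φ.length) (), 0,
    chooseR (3 * φ.length) ++ (3 * φ.length, [], φ.zipIdx.map (fun p => (3 * φ.length + 1 + p.2, []))) ::
      checkR (3 * φ.length) φ)

theorem satARM_pr {φ : List Cl} (h : Bounded3 φ) : ARMPr (satARM φ) := by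
  intro r hr
  simp only [satARM, List.mem_append, List.mem_cons, List.length_replicate] at hr ⊢
  rcases hr with hr | rfl | hr
  · simp only [chooseR, List.mem_flatMap, List.mem_range, List.mem_cons, List.not_mem_nil,
      or_false] at hr
    obtain ⟨i, hi, rfl | rfl⟩ := hr <;> simp [hi]
  · refine ⟨by simp, ?_⟩
    intro s hs u hu
    rw [List.mem_map] at hs
    obtain ⟨q, -, rfl⟩ := hs
    simp at hu
  · simp only [checkR, List.mem_flatMap, List.mem_cons, List.not_mem_nil, or_false] at hr
    obtain ⟨⟨c, k⟩, hc, hr⟩ := hr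
    have hc' : c ∈ φ := List.fst_mem_of_mem_zipIdx hc
    obtain ⟨h1, h2, h3⟩ := h c hc'
    rcases hr with rfl | rfl | rfl <;> simp [h1, h2, h3]

theorem upd_nil (ρ : ℕ → Bool) : upd ρ [] = ρ := by
  funext i
  simp [upd]

theorem upd_single (ρ : ℕ → Bool) (i : ℕ) (b : Bool) :
    upd ρ [(i, b)] = fun j => if j = i then b else ρ j := by
  funext j
  by_cases h : j = i
  · subst h
    simp [upd]
  · have h' : (j == i) = false := by simp [h]
    simp [upd, List.lookup_cons, h', h]

theorem der_inv {P : List ARule} {q : ℕ} {ρ : ℕ → Bool} (h : Der P q ρ) :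
    ∃ r ∈ P, r.1 = q ∧ (∀ g ∈ r.2.1, ρ g.1 = g.2) ∧ ∀ s ∈ r.2.2, Der P s.1 (upd ρ s.2) := by
  cases h with
  | mk r ρ hr hg hp => exact ⟨r, hr, rfl, hg, hp⟩

/-- Rules whose head is a choice control. -/
theorem rule_lt {φ : List Cl} {r : ARule} (hr : r ∈ (satARM φ).2.2) {i : ℕ}
    (hi : i < 3 * φ.length) (h : r.1 = i) : ∃ b, r = (i, [], [(i + 1, [(i, b)])]) := by
  simp only [satARM, List.mem_append, List.mem_cons] at hr
  rcases hr with hr | rfl | hr
  · simp only [chooseR, List.mem_flatMap, List.mem_range, List.mem_cons, List.not_mem_nil,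
      or_false] at hr
    obtain ⟨j, hj, rfl | rfl⟩ := hr
    · obtain rfl : j = i := h
      exact ⟨true, rfl⟩
    · obtain rfl : j = i := h
      exact ⟨false, rfl⟩
  · simp at h
    omega
  · simp only [checkR, List.mem_flatMap, List.mem_cons, List.not_mem_nil, or_false] at hr
    obtain ⟨⟨c, k⟩, hc, hr⟩ := hr
    rcases hr with rfl | rfl | rfl <;> (simp at h; omega)

theorem rule_eq {φ : List Cl} {r : ARule} (hr : r ∈ (satARM φ).2.2)
    (h : r.1 = 3 * φ.length) :
    r = (3 * φ.length, [], φ.zipIdx.map (fun p => (3 * φ.length + 1 + p.2, []))) := by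
  simp only [satARM, List.mem_append, List.mem_cons] at hr
  rcases hr with hr | rfl | hr
  · simp only [chooseR, List.mem_flatMap, List.mem_range, List.mem_cons, List.not_mem_nil,
      or_false] at hr
    obtain ⟨j, hj, rfl | rfl⟩ := hr <;> (simp at h; omega)
  · rfl
  · simp only [checkR, List.mem_flatMap, List.mem_cons, List.not_mem_nil, or_false] at hr
    obtain ⟨⟨c, k⟩, hc, hr⟩ := hr
    rcases hr with rfl | rfl | rfl <;> (simp at h; omega)

theorem rule_gt {φ : List Cl} {r : ARule} (hr : r ∈ (satARM φ).2.2) {k : ℕ}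
    {c : Cl} (hc : (c, k) ∈ φ.zipIdx) (h : r.1 = 3 * φ.length + 1 + k) :
    r.2.1 = [(c.1.2, c.1.1)] ∨ r.2.1 = [(c.2.1.2, c.2.1.1)] ∨ r.2.1 = [(c.2.2.2, c.2.2.1)] := by
  simp only [satARM, List.mem_append, List.mem_cons] at hr
  rcases hr with hr | rfl | hr
  · simp only [chooseR, List.mem_flatMap, List.mem_range, List.mem_cons, List.not_mem_nil,
      or_false] at hr
    obtain ⟨j, hj, rfl | rfl⟩ := hr <;> (simp at h; omega)
  · simp at h
    omega
  · simp only [checkR, List.mem_flatMap, List.mem_cons, List.not_mem_nil, or_false] at hr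
    obtain ⟨⟨c', k'⟩, hc', hr⟩ := hr
    have key : k' = k → c' = c := by
      rintro rfl
      rw [List.mem_zipIdx_iff_getElem?] at hc hc'
      simp only at hc hc'
      rw [hc] at hc'
      exact (Option.some.inj hc').symm
    rcases hr with rfl | rfl | rfl
    · have : c' = c := key (by simp at h; omega)
      subst this
      left; rfl
    · have : c' = c := key (by simp at h; omega)
      subst this
      right; left; rfl
    · have : c' = c := key (by simp at h; omega)
      subst this
      right; right; rfl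

theorem der_up {φ : List Cl} : ∀ (d i : ℕ) (ρ : ℕ → Bool), i + d = 3 * φ.length →
    Der (satARM φ).2.2 i ρ → ∃ ρ', Der (satARM φ).2.2 (3 * φ.length) ρ' := by
  intro d
  induction d with
  | zero =>
    intro i ρ hi h
    obtain rfl : i = 3 * φ.length := by omega
    exact ⟨ρ, h⟩
  | succ d ih =>
    intro i ρ hi h
    obtain ⟨r, hr, hq, -, hp⟩ := (der_inv h)
    obtain ⟨b, rfl⟩ := rule_lt hr (by omega) hq
    exact ih (i + 1) _ (by omega) (hp (i + 1, [(i, b)]) (by simp))

theorem sat_of_der {φ : List Cl} {ρ : ℕ → Bool} (h : Der (satARM φ).2.2 (3 * φ.length) ρ) :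
    SAT3 φ := by
  obtain ⟨r, hr, hq, -, hp⟩ := (der_inv h)
  have hr' := rule_eq hr hq
  subst hr'
  refine ⟨ρ, fun c hc => ?_⟩
  obtain ⟨k, hk, hck⟩ := List.mem_iff_getElem.1 hc
  have hmem : (c, k) ∈ φ.zipIdx := by
    rw [List.mem_zipIdx_iff_getElem?]
    simp [List.getElem?_eq_getElem hk, hck]
  have h1 := hp (3 * φ.length + 1 + k, []) (List.mem_map.2 ⟨(c, k), hmem, rfl⟩)
  simp only [upd_nil] at h1
  obtain ⟨r', hr', hq', hg', -⟩ := (der_inv h1)
  rcases rule_gt hr' hmem hq' with h2 | h2 | h2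
  · left
    have := hg' (c.1.2, c.1.1) (by rw [h2]; simp)
    simpa using this
  · right; left
    have := hg' (c.2.1.2, c.2.1.1) (by rw [h2]; simp)
    simpa using this
  · right; right
    have := hg' (c.2.2.2, c.2.2.1) (by rw [h2]; simp)
    simpa using this

theorem der_of_sat {φ : List Cl} (hb : Bounded3 φ) {τ : ℕ → Bool}
    (hτ : ∀ c ∈ φ, τ c.1.2 = c.1.1 ∨ τ c.2.1.2 = c.2.1.1 ∨ τ c.2.2.2 = c.2.2.1) :
    ∀ (d i : ℕ) (ρ : ℕ → Bool), i + d = 3 * φ.length → (∀ j < i, ρ j = τ j) →
      Der (satARM φ).2.2 i ρ := by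
  intro d
  induction d with
  | zero =>
    intro i ρ hi h
    obtain rfl : i = 3 * φ.length := by omega
    refine Der.mk (3 * φ.length, [], φ.zipIdx.map (fun p => (3 * φ.length + 1 + p.2, []))) ρ
      (by simp [satARM]) (by simp) ?_
    intro s hs
    rw [List.mem_map] at hs
    obtain ⟨⟨c, k⟩, hck, rfl⟩ := hs
    have hc : c ∈ φ := List.fst_mem_of_mem_zipIdx hck
    simp only [upd_nil]
    obtain ⟨b1, b2, b3⟩ := hb c hc
    rcases hτ c hc with h1 | h1 | h1
    · refine Der.mk (3 * φ.length + 1 + k, [(c.1.2, c.1.1)], []) ρ ?_ ?_ (by simp)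
      · simp only [satARM, checkR, List.mem_append, List.mem_cons, List.mem_flatMap]
        right; right
        exact ⟨(c, k), hck, Or.inl rfl⟩
      · simp only [List.mem_singleton, forall_eq]
        rw [h _ b1, h1]
    · refine Der.mk (3 * φ.length + 1 + k, [(c.2.1.2, c.2.1.1)], []) ρ ?_ ?_ (by simp)
      · simp only [satARM, checkR, List.mem_append, List.mem_cons, List.mem_flatMap]
        right; right
        exact ⟨(c, k), hck, Or.inr (Or.inl rfl)⟩
      · simp only [List.mem_singleton, forall_eq]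
        rw [h _ b2, h1]
    · refine Der.mk (3 * φ.length + 1 + k, [(c.2.2.2, c.2.2.1)], []) ρ ?_ ?_ (by simp)
      · simp only [satARM, checkR, List.mem_append, List.mem_cons, List.mem_flatMap]
        right; right
        exact ⟨(c, k), hck, Or.inr (Or.inr (Or.inl rfl))⟩
      · simp only [List.mem_singleton, forall_eq]
        rw [h _ b3, h1]
  | succ d ih =>
    intro i ρ hi h
    refine Der.mk (i, [], [(i + 1, [(i, τ i)])]) ρ ?_ (by simp) ?_
    · simp only [satARM, chooseR, List.mem_append, List.mem_flatMap, List.mem_range]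
      left
      refine ⟨i, by omega, ?_⟩
      cases τ i <;> simp
    · simp only [List.mem_singleton, forall_eq]
      apply ih (i + 1) _ (by omega)
      intro j hj
      rw [upd_single]
      by_cases hji : j = i
      · simp [hji]
      · simp only [hji, if_false]
        exact h j (by omega)

/-- Correctness. -/
theorem satARM_acc {φ : List Cl} (hb : Bounded3 φ) : SAT3 φ ↔ ARMAcc (satARM φ) := by
  constructor
  · rintro ⟨τ, hτ⟩
    exact der_of_sat hb hτ (3 * φ.length) 0 _ (by omega) (by simp)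
  · intro h
    obtain ⟨ρ, hρ⟩ := der_up (3 * φ.length) 0 _ (by omega) h
    exact sat_of_der hρ

theorem poly_satARM : Poly satARM := by
  have hN : UPoly (fun φ : List Cl => 3 * φ.length) :=
    UPoly.mul (UPoly.const 3) (UPoly.length Poly.id)
  have hN' : Poly (fun φ : List Cl => 3 * φ.length) := hN.toPoly
  unfold satARM chooseR checkR
  refine Poly.pair hN (Poly.pair (Poly.const 0) (Poly.append ?_ (Poly.cons (Poly.pair hN'
    (Poly.pair (Poly.const _) ?_)) ?_)))
  · exact Poly.flatMap (F := fun _ i => [(i, [], [(i + 1, [(i, true)])]),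
      (i, [], [(i + 1, [(i, false)])])]) hN.range (by fun_prop)
  · exact Poly.map (F := fun (φ : List Cl) (p : Cl × ℕ) => (3 * φ.length + 1 + p.2, []))
      (Poly.zipIdx Poly.id) (by fun_prop)
  · exact Poly.flatMap (F := fun (φ : List Cl) (p : Cl × ℕ) =>
      [(3 * φ.length + 1 + p.2, [(p.1.1.2, p.1.1.1)], []),
      (3 * φ.length + 1 + p.2, [(p.1.2.1.2, p.1.2.1.1)], []),
      (3 * φ.length + 1 + p.2, [(p.1.2.2.2, p.1.2.2.1)], [])])
      (Poly.zipIdx Poly.id) (by fun_prop)

/-- Acceptance of alternating register machines is NP-hard (with the promise). -/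
theorem hardPr_ARM : HardPr ARMPr ARMAcc :=
  hardPr_SAT3b.trans poly_satARM (fun _ h => satARM_pr h.2.1) (fun _ h => satARM_acc h.2.1)

end Pool.Agent.NPC.H604SS
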